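import Pool.Agent.H17.VG.TargetsE
import Pool.Agent.H64.SC.Api2

/-! Board bo_modules, row OV. -/

set_option autoImplicit false

namespace Pool.Agent.H60.BO

open MvPolynomial SC Pool.Agent.H27.LV Pool.Agent.H17.VG

private theorem over_unique {k K L : Type} [Field k] [Field K] [Field L] [Algebra k K]
    [Algebra k L] [Algebra K L] {v : DV k K} {w : DV k L} {e e' : ℕ} (h : Over v w e)
    (h' : Over v w e') : e = e' := by
  have h1 := h.2 v.unif
  have h2 := h'.2 v.unif
  rw [h1, v.ord_unif] at h2
  simpa using h2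

private theorem over_unique' {k K L : Type} [Field k] [Field K] [Field L] [Algebra k K]
    [Algebra k L] [Algebra K L] {v v' : DV k K} {w : DV k L} {e e' : ℕ} (h : Over v w e)
    (h' : Over v' w e') : v = v' := by
  have hd : ∀ {u u' : DV k K} {m m' : ℕ}, Over u w m → Over u' w m' → m' ∣ m := by
    intro u u' m m' hu hu'
    have h1 := hu.2 u.unif
    have h2 := hu'.2 u.unif
    rw [h1, u.ord_unif, mul_one] at h2
    have h3 : (m' : ℤ) ∣ (m : ℤ) := ⟨_, h2⟩
    exact_mod_cast h3
  have he : e = e' := Nat.dvd_antisymm (hd h' h) (hd h h')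
  subst he
  have ho : v.ord = v'.ord := by
    funext x
    have h1 := h.2 x
    have h2 := h'.2 x
    rw [h1] at h2
    have h3 : (e : ℤ) ≠ 0 := by exact_mod_cast h.1.ne'
    exact mul_left_cancel₀ h3 h2
  cases v
  cases v'
  simp only at ho
  subst ho
  rfl

private theorem exists_ne {k K L : Type} [Field k] [Field K] [Field L] [Algebra k K]
    [Algebra k L] [Algebra K L] [FiniteDimensional K L] (w : DV k L) :
    ∃ x : K, w.ord (algebraMap K L x) ≠ 0 := by
  by_contra hc
  push Not at hc
  let φ : K →+* w.vs :=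
    { toFun := fun x => ⟨algebraMap K L x, by rw [DV.mem_vs, hc x]⟩
      map_one' := by ext; simp
      map_mul' := by intro a b; ext; simp
      map_zero' := by ext; simp
      map_add' := by intro a b; ext; simp }
  have hall : ∀ y : L, 0 ≤ w.ord y := by
    intro y
    obtain ⟨p, hp, hpy⟩ : IsIntegral K y := Algebra.IsIntegral.isIntegral y
    have hint : IsIntegral w.vs y := by
      refine ⟨p.map φ, hp.map φ, ?_⟩
      rw [Polynomial.eval₂_map]
      have : (algebraMap w.vs L).comp φ = algebraMap K L := by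
        ext x
        rfl
      rw [this]
      exact hpy
    obtain ⟨z, hz⟩ := IsIntegrallyClosed.isIntegral_iff.1 hint
    rw [← hz]
    exact z.2
  have h1 := hall w.unif⁻¹
  rw [w.ord_inv, w.ord_unif] at h1
  omega

theorem pf_OV : T_OV := by
  intro k K L _ _ _ _ _ _ _ _ w
  have hram : ∀ (v : DV k K) (e : ℕ), Over v w e → ram v w = e := by
    intro v e h
    have hex : ∃ e, Over v w e := ⟨e, h⟩
    have h1 : ram v w = hex.choose := by
      unfold ram
      rw [dif_pos hex]
    rw [h1]
    exact over_unique hex.choose_spec h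
  refine ⟨?_, hram, fun v v' e e' h h' => over_unique' h h'⟩
  obtain ⟨v, e, h⟩ := t_V2 k K k L w (exists_ne w)
  refine ⟨v, ?_⟩
  rw [hram v e h]
  exact ⟨h, h.1⟩

end Pool.Agent.H60.BO
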