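import Pool.Agent.H17.BO.TargetsD

/-! Board bo_modules, row TF3. -/

set_option autoImplicit false

open Filter

namespace Pool.Agent.H60.BO

open MvPolynomial SC Pool.Agent.H27.LV Pool.Agent.H17.VG Pool.Agent.H17.BO

section

variable {K : ℕ → Type} [∀ i, Field (K i)] {L : Type} [Field L] (π : (∀ i, K i) →+* L)

/-- a polynomial which vanishes in the ultraproduct vanishes at almost all indices -/
private theorem poly_zero
    (hker : ∀ f, π f = 0 ↔ ∀ᶠ i in (hyperfilter ℕ : Filter ℕ), f i = 0)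
    (p : Polynomial (∀ i, K i)) (hp : p.map π = 0) :
    ∀ᶠ i in (hyperfilter ℕ : Filter ℕ), p.map (Pi.evalRingHom K i) = 0 := by
  have h1 : ∀ n ∈ p.support, ∀ᶠ i in (hyperfilter ℕ : Filter ℕ), p.coeff n i = 0 := by
    intro n _
    rw [← hker, ← Polynomial.coeff_map, hp, Polynomial.coeff_zero]
  have h2 := (Filter.eventually_all_finset p.support).2 h1
  filter_upwards [h2] with i hi
  ext n
  rw [Polynomial.coeff_map, Polynomial.coeff_zero, Pi.evalRingHom_apply]
  by_cases hn : n ∈ p.support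
  · exact hi n hn
  · rw [Polynomial.notMem_support_iff.1 hn]
    rfl

end

private theorem map_aev {n : ℕ} {S T : Type} [CommRing S] [CommRing T] (f : S →+* T)
    (g : Fin (n + 1) → Polynomial S) (F : MvPolynomial (Fin (n + 1)) S) :
    (aeval g F).map f = aeval (fun i => (g i).map f) (MvPolynomial.map f F) := by
  have h : (Polynomial.mapRingHom f).comp (aeval g).toRingHom =
      ((aeval (fun i => (g i).map f)).toRingHom).comp (MvPolynomial.map f) := by
    apply MvPolynomial.ringHom_ext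
    · intro r
      simp
    · intro i
      simp
  exact RingHom.congr_fun h F

private theorem map_det' {S T : Type} [CommRing S] [CommRing T] (f : S →+* T)
    (Y : Fin 3 → Fin 3 → Polynomial S) :
    ((Matrix.of Y).det).map f = (Matrix.of fun a b => (Y a b).map f).det := by
  have h := RingHom.map_det (Polynomial.mapRingHom f) (Matrix.of Y)
  exact h

section

variable {k K : ℕ → Type} [∀ i, Field (k i)] [∀ i, IsAlgClosed (k i)] [∀ i, CharZero (k i)]
  [∀ i, Field (K i)] [∀ i, Algebra (k i) (K i)] [∀ i, Algebra.EssFiniteType (k i) (K i)]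

/-- heights of the specialisations of a polynomial -/
private theorem hgt_poly (hHTA : T_HTA) (htr : ∀ i, Algebra.trdeg (k i) (K i) = 1) (B : ℕ → ℕ)
    (p : Polynomial (∀ i, K i))
    (hp : ∀ m, ∃ N : ℕ, ∀ᶠ i in (hyperfilter ℕ : Filter ℕ), h1 (k i) (p.coeff m i) ≤ N * B i) :
    ∃ N : ℕ, (∀ᶠ i in (hyperfilter ℕ : Filter ℕ),
      hP (k i) (p.map (Pi.evalRingHom K i)) ≤ N * B i) ∧
      ∀ i, (p.map (Pi.evalRingHom K i)).natDegree ≤ N := by
  choose N hN using hp
  refine ⟨(∑ m ∈ Finset.range (p.natDegree + 1), N m) + p.natDegree, ?_, ?_⟩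
  · have h2 := (Filter.eventually_all_finset (Finset.range (p.natDegree + 1))).2
      fun m (_ : m ∈ Finset.range (p.natDegree + 1)) => hN m
    filter_upwards [h2] with i hi
    set P := p.map (Pi.evalRingHom K i) with hPdef
    have hd : P.natDegree ≤ p.natDegree := Polynomial.natDegree_map_le
    have h3 : hP (k i) P ≤ ∑ m : Fin (P.natDegree + 1), h1 (k i) (P.coeff m) :=
      ((hHTA (k i) (K i) (htr i) 0 0).2.2.2.2 (Fin (P.natDegree + 1)) _).2
    have h4 : ∑ m : Fin (P.natDegree + 1), h1 (k i) (P.coeff m) =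
        ∑ m ∈ Finset.range (P.natDegree + 1), h1 (k i) (P.coeff m) :=
      Fin.sum_univ_eq_sum_range (fun m => h1 (k i) (P.coeff m)) (P.natDegree + 1)
    have h5 : ∑ m ∈ Finset.range (P.natDegree + 1), h1 (k i) (P.coeff m) ≤
        ∑ m ∈ Finset.range (p.natDegree + 1), h1 (k i) (P.coeff m) :=
      Finset.sum_le_sum_of_subset (Finset.range_mono (by omega))
    have h6 : ∑ m ∈ Finset.range (p.natDegree + 1), h1 (k i) (P.coeff m) ≤
        ∑ m ∈ Finset.range (p.natDegree + 1), N m * B i := by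
      refine Finset.sum_le_sum fun m hm => ?_
      have h7 : P.coeff m = p.coeff m i := by
        rw [hPdef, Polynomial.coeff_map, Pi.evalRingHom_apply]
      rw [h7]
      exact hi m hm
    rw [← Finset.sum_mul] at h6
    rw [h4] at h3
    calc hP (k i) P ≤ (∑ m ∈ Finset.range (p.natDegree + 1), N m) * B i := by omega
      _ ≤ _ := Nat.mul_le_mul_right _ (by omega)
  · intro i
    have hd : (p.map (Pi.evalRingHom K i)).natDegree ≤ p.natDegree := Polynomial.natDegree_map_le
    omega

end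

/-- uniform bounds for finite families -/
private theorem unif {ι : Type} [Finite ι] (B : ℕ → ℕ) (f : ι → ℕ → ℕ)
    (h : ∀ j, ∃ N : ℕ, ∀ᶠ i in (hyperfilter ℕ : Filter ℕ), f j i ≤ N * B i) :
    ∃ N : ℕ, ∀ᶠ i in (hyperfilter ℕ : Filter ℕ), ∀ j, f j i ≤ N * B i := by
  classical
  cases nonempty_fintype ι
  choose N hN using h
  refine ⟨Finset.univ.sup N, ?_⟩
  have h2 := Filter.eventually_all.2 hN
  filter_upwards [h2] with i hi j
  exact (hi j).trans (Nat.mul_le_mul_right _ (Finset.le_sup (Finset.mem_univ j)))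

theorem pf_TF3 (hHTA : T_HTA) : T_TF3 := by
  classical
  intro k K _ _ _ _ _ _ htr B L _ k' _ _ π hsurj hker hran n d x c c' hc hcon
  obtain ⟨s, P, q, U, V, Y, hC⟩ := hcon
  -- lifts of elements
  choose P0 hP0 using fun (j : Fin (n + 1)) (a : Fin 3) => hsurj (algebraMap k' L (P j a))
  choose q1 hq1 using fun (a b : Fin 3) => hsurj (algebraMap k' L (q a b))
  have hqs : ∀ a b, algebraMap k' L (q a b) = algebraMap k' L (q b a) := by
    intro a b
    have := congrFun (congrFun hC.symm a) b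
    simpa using this.symm
  obtain ⟨q0, hq0, hq0s⟩ : ∃ q0 : Fin 3 → Fin 3 → ∀ i, K i,
      (∀ a b, π (q0 a b) = algebraMap k' L (q a b)) ∧ ∀ a b, q0 a b = q0 b a := by
    refine ⟨fun a b => if a ≤ b then q1 a b else q1 b a, ?_, ?_⟩
    · intro a b
      by_cases h : a ≤ b
      · simp only [if_pos h, hq1]
      · simp only [if_neg h, hq1]
        exact (hqs a b).symm
    · intro a b
      by_cases h : a ≤ b
      · by_cases h' : b ≤ a
        · have : a = b := le_antisymm h h'
          subst this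
          rfl
        · simp only [if_pos h, if_neg h']
      · have h' : b ≤ a := le_of_not_ge h
        simp only [if_neg h, if_pos h']
  -- lifts of polynomials
  have hpl : ∀ p : Polynomial L, ∃ p0 : Polynomial (∀ i, K i), p0.map π = p :=
    Polynomial.map_surjective π hsurj
  obtain ⟨U0, hU0, hU0d, hU0m⟩ := Polynomial.lifts_and_natDegree_eq_and_monic
    (f := π) (p := U.map (algebraMap k' L)) ((Polynomial.mem_lifts _).2 (hpl _)) hC.monic
  obtain ⟨V0, hV0⟩ := hpl (V.map (algebraMap k' L))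
  choose Y0 hY0 using fun (j a : Fin 3) => hpl ((Y j a).map (algebraMap k' L))
  -- the form
  set F0 : MvPolynomial (Fin (n + 1)) (∀ i, K i) := ∑ f : Mon (n + 1) d,
    C (fun i => algebraMap (k i) (K i) (c i f)) * monomial (fs f.1) 1 with hF0
  have hFπ : MvPolynomial.map π F0 = up L (frm c') := by
    rw [hF0, up, frm, map_sum, map_sum]
    refine Finset.sum_congr rfl fun f _ => ?_
    simp only [map_mul, MvPolynomial.map_C, mono, MvPolynomial.map_monomial, RingHom.map_one, hc]
  have hFi : ∀ i, MvPolynomial.map (Pi.evalRingHom K i) F0 = up (K i) (frm (c i)) := by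
    intro i
    rw [hF0, up, frm, map_sum, map_sum]
    refine Finset.sum_congr rfl fun f _ => ?_
    simp only [map_mul, MvPolynomial.map_C, mono, MvPolynomial.map_monomial, RingHom.map_one]
    rfl
  -- the identities
  choose W hW using hC.con
  choose W0 hW0 using fun j => hpl (W j)
  choose Z hZ using hC.pts
  choose Z0 hZ0 using fun j => hpl (Z j)
  obtain ⟨T, hT⟩ := hC.inv
  obtain ⟨T0, hT0⟩ := hpl T
  obtain ⟨a, b, hab⟩ := hC.sep
  obtain ⟨a0, ha0⟩ := hpl a
  obtain ⟨b0, hb0⟩ := hpl b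
  have e1 : ∀ j, ∀ᶠ i in (hyperfilter ℕ : Filter ℕ),
      ((∑ a, ∑ b, Polynomial.C (q0 a b) * Y0 j a * Y0 j b) - U0 * W0 j).map
        (Pi.evalRingHom K i) = 0 := by
    intro j
    refine poly_zero π hker _ ?_
    simp only [Polynomial.map_sub, Polynomial.map_mul, Polynomial.map_sum, Polynomial.map_C, hq0,
      hY0, hU0, hW0]
    rw [sub_eq_zero]
    exact hW j
  have e2 : ∀ j, ∀ᶠ i in (hyperfilter ℕ : Filter ℕ),
      (aeval (fun l => ∑ a, Polynomial.C (P0 l a) * Y0 j a) F0 - U0 * Z0 j).map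
        (Pi.evalRingHom K i) = 0 := by
    intro j
    refine poly_zero π hker _ ?_
    rw [Polynomial.map_sub, map_aev, hFπ, Polynomial.map_mul, hU0, hZ0, sub_eq_zero]
    simp only [Polynomial.map_mul, Polynomial.map_sum, Polynomial.map_C, hP0, hY0]
    exact hZ j
  have e3 : ∀ᶠ i in (hyperfilter ℕ : Filter ℕ),
      ((Matrix.of Y0).det * V0 - 1 - U0 * T0).map (Pi.evalRingHom K i) = 0 := by
    refine poly_zero π hker _ ?_
    rw [Polynomial.map_sub, Polynomial.map_sub, Polynomial.map_mul, Polynomial.map_mul, map_det',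
      hU0, hT0, hV0, Polynomial.map_one, sub_eq_zero]
    simp only [hY0]
    exact hT
  have e4 : ∀ᶠ i in (hyperfilter ℕ : Filter ℕ),
      (a0 * U0 + b0 * Polynomial.derivative U0 - 1).map (Pi.evalRingHom K i) = 0 := by
    refine poly_zero π hker _ ?_
    rw [Polynomial.map_sub, Polynomial.map_add, Polynomial.map_mul, Polynomial.map_mul,
      ← Polynomial.derivative_map, hU0, ha0, hb0, Polynomial.map_one, sub_eq_zero]
    exact hab
  have e5 : ∀ j, ∀ᶠ i in (hyperfilter ℕ : Filter ℕ),
      x i j = ∑ a, P0 j a i * x i (s a) := by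
    intro j
    have h1 : π ((fun i => x i j) - ∑ a, P0 j a * (fun i => x i (s a))) = 0 := by
      rw [map_sub, map_sum, sub_eq_zero]
      simp only [map_mul, hP0]
      exact hC.plane j
    filter_upwards [(hker _).1 h1] with i hi
    rw [Pi.sub_apply, sub_eq_zero, Finset.sum_apply] at hi
    exact hi
  have e6 : ∀ᶠ i in (hyperfilter ℕ : Filter ℕ),
      ∑ a, ∑ b, q0 a b i * x i (s a) * x i (s b) = 0 := by
    have h1 : π (∑ a, ∑ b, q0 a b * (fun i => x i (s a)) * (fun i => x i (s b))) = 0 := by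
      simp only [map_sum, map_mul, hq0]
      exact hC.on
    filter_upwards [(hker _).1 h1] with i hi
    simp only [Finset.sum_apply] at hi
    exact hi
  have e7 : ∀ᶠ i in (hyperfilter ℕ : Filter ℕ),
      (Matrix.of fun a b => q0 a b i : Matrix (Fin 3) (Fin 3) (K i)).det ≠ 0 := by
    have h1 : π ((Matrix.of q0).det) ≠ 0 := by
      have h2 := RingHom.map_det π (Matrix.of q0)
      rw [h2]
      have h3 : π.mapMatrix (Matrix.of q0) = q.map (algebraMap k' L) := by
        ext a b
        exact hq0 a b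
      rw [h3]
      exact hC.det
    have h4 : ¬ ∀ᶠ i in (hyperfilter ℕ : Filter ℕ), (Matrix.of q0).det i = 0 :=
      fun h => h1 ((hker _).2 h)
    have h5 : ∀ᶠ i in (hyperfilter ℕ : Filter ℕ), ¬ (Matrix.of q0).det i = 0 :=
      Ultrafilter.eventually_not.2 h4
    filter_upwards [h5] with i hi
    have h6 := RingHom.map_det (Pi.evalRingHom K i) (Matrix.of q0)
    intro h7
    apply hi
    exact h6.trans h7
  -- heights
  have r1 : ∀ j a, ∃ N : ℕ, ∀ᶠ i in (hyperfilter ℕ : Filter ℕ), h1 (k i) (P0 j a i) ≤ N * B i :=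
    fun j a => (hran _).1 ⟨_, (hP0 j a).symm⟩
  have r2 : ∀ a b, ∃ N : ℕ, ∀ᶠ i in (hyperfilter ℕ : Filter ℕ), h1 (k i) (q0 a b i) ≤ N * B i :=
    fun a b => (hran _).1 ⟨_, (hq0 a b).symm⟩
  have rp : ∀ (p0 : Polynomial (∀ i, K i)) (p : Polynomial k'),
      p0.map π = p.map (algebraMap k' L) → ∀ m, ∃ N : ℕ,
      ∀ᶠ i in (hyperfilter ℕ : Filter ℕ), h1 (k i) (p0.coeff m i) ≤ N * B i := by
    intro p0 p hp m
    refine (hran _).1 ⟨p.coeff m, ?_⟩
    rw [← Polynomial.coeff_map, ← Polynomial.coeff_map, hp]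
  obtain ⟨N1, hN1⟩ := unif B (fun (z : Fin (n + 1) × Fin 3) i => h1 (k i) (P0 z.1 z.2 i))
    fun z => r1 z.1 z.2
  obtain ⟨N2, hN2⟩ := unif B (fun (z : Fin 3 × Fin 3) i => h1 (k i) (q0 z.1 z.2 i))
    fun z => r2 z.1 z.2
  obtain ⟨N3, hN3, hD3⟩ := hgt_poly hHTA htr B U0 (rp U0 U hU0)
  obtain ⟨N4, hN4, hD4⟩ := hgt_poly hHTA htr B V0 (rp V0 V hV0)
  choose N5 hN5 hD5 using fun (z : Fin 3 × Fin 3) =>
    hgt_poly hHTA htr B (Y0 z.1 z.2) (rp (Y0 z.1 z.2) (Y z.1 z.2) (hY0 z.1 z.2))
  set N6 : ℕ := Finset.univ.sup N5 with hN6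
  have hN56 : ∀ z, N5 z ≤ N6 := fun z => Finset.le_sup (Finset.mem_univ z)
  have hN5' := Filter.eventually_all.2 hN5
  set N : ℕ := N1 + N2 + N3 + N4 + N6 with hNdef
  refine ⟨N, ?_⟩
  have hle : ∀ {M v i : ℕ}, M ≤ N → v ≤ M * B i → v ≤ N * B i :=
    fun h1 h2 => h2.trans (Nat.mul_le_mul_right _ h1)
  filter_upwards [Filter.eventually_all.2 e1, Filter.eventually_all.2 e2, e3, e4,
    Filter.eventually_all.2 e5, e6, e7, hN1, hN2, hN3, hN4, hN5'] with i f1 f2 f3 f4 f5 f6 f7
    g1 g2 g3 g4 g5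
  have hUi : (U0.map (Pi.evalRingHom K i)).Monic := hU0m.map _
  refine ⟨s, fun j a => P0 j a i, Matrix.of fun a b => q0 a b i,
    U0.map (Pi.evalRingHom K i), V0.map (Pi.evalRingHom K i),
    fun j a => (Y0 j a).map (Pi.evalRingHom K i), ?_, ?_⟩
  · constructor
    · exact f5
    · ext a b
      show q0 b a i = q0 a b i
      rw [hq0s b a]
    · exact f7
    · exact f6
    · exact hUi
    · refine ⟨a0.map (Pi.evalRingHom K i), b0.map (Pi.evalRingHom K i), ?_⟩
      rw [Polynomial.map_sub, Polynomial.map_add, Polynomial.map_mul, Polynomial.map_mul,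
        ← Polynomial.derivative_map, Polynomial.map_one, sub_eq_zero] at f4
      exact f4
    · rw [hU0m.natDegree_map, hU0d]
      exact hC.deg1
    · intro j
      refine ⟨(W0 j).map (Pi.evalRingHom K i), ?_⟩
      have h := f1 j
      simp only [Polynomial.map_sub, Polynomial.map_mul, Polynomial.map_sum,
        Polynomial.map_C] at h
      rw [sub_eq_zero] at h
      exact h
    · intro j
      refine ⟨(Z0 j).map (Pi.evalRingHom K i), ?_⟩
      have h := f2 j
      rw [Polynomial.map_sub, map_aev, hFi, Polynomial.map_mul, sub_eq_zero] at h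
      simp only [Polynomial.map_mul, Polynomial.map_sum, Polynomial.map_C] at h
      exact h
    · refine ⟨T0.map (Pi.evalRingHom K i), ?_⟩
      rw [Polynomial.map_sub, Polynomial.map_sub, Polynomial.map_mul, Polynomial.map_mul,
        map_det', Polynomial.map_one, sub_eq_zero] at f3
      exact f3
  · constructor
    · intro j a
      exact hle (by omega) (g1 (j, a))
    · intro a b
      exact hle (by omega) (g2 (a, b))
    · exact hle (by omega) g3
    · exact hle (by omega) g4
    · intro j a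
      have := hN56 (j, a)
      exact hle (by omega) (g5 (j, a))
    · exact (hD3 i).trans (by omega)
    · exact (hD4 i).trans (by omega)
    · intro j a
      have := hN56 (j, a)
      exact (hD5 (j, a) i).trans (by omega)

end Pool.Agent.H60.BO
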