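import Pool.Agent.H17.BO.TargetsC
import Pool.Agent.H15.BO.FNX

/-! Board bo_modules, row TRI. -/

set_option autoImplicit false

namespace Pool.Agent.H60.BO

open MvPolynomial SC Pool.Agent.H27.LV Pool.Agent.H17.VG Pool.Agent.H17.BO

section

variable {L : Type} [Field L] {n d : ℕ}

private theorem fnl_add' (y : Mon (n + 1) d → L) (A B : MvPolynomial (Fin (n + 1)) L) :
    fnl y (A + B) = fnl y A + fnl y B := by
  unfold fnl
  rw [← Finset.sum_add_distrib]
  exact Finset.sum_congr rfl fun M _ => by rw [coeff_add, mul_add]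

private theorem fnl_C_mul' (y : Mon (n + 1) d → L) (c : L) (A : MvPolynomial (Fin (n + 1)) L) :
    fnl y (C c * A) = c * fnl y A := by
  unfold fnl
  rw [Finset.mul_sum]
  exact Finset.sum_congr rfl fun M _ => by rw [coeff_C_mul]; ring

private theorem fnl_sum' {ι : Type} (s : Finset ι) (y : Mon (n + 1) d → L)
    (A : ι → MvPolynomial (Fin (n + 1)) L) : fnl y (∑ i ∈ s, A i) = ∑ i ∈ s, fnl y (A i) := by
  classical
  induction s using Finset.induction_on with
  | empty => simp [fnl]
  | insert a s ha ih => rw [Finset.sum_insert ha, Finset.sum_insert ha, fnl_add', ih]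

end

theorem pf_TRI (hANN : T_ANN) (hOLN : T_OLN) : T_TRI := by
  classical
  intro k L _ _ _ e m g hg hz x y m0 m1 hx hind hm0 hm1 hgr h0 h1 hex
  have hm0ne : m0 ≠ 0 := by
    have := hind.ne_zero 0
    simpa using this
  choose r hr using h1
  -- the functional over `k`
  set lam : Mon 3 (e + 1) → k := fun M => r (Pi.single M 1) with hlam
  have hfrm1 : ∀ M : Mon 3 (e + 1), frm (Pi.single M 1 : Mon 3 (e + 1) → k) = mono k M.1 := by
    intro M
    unfold frm
    rw [Finset.sum_eq_single M]
    · simp
    · intro N _ hN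
      rw [Pi.single_eq_of_ne hN]
      simp
    · intro h
      exact absurd (Finset.mem_univ M) h
  have hlin : ∀ Q : Mon 3 (e + 1) → k,
      fnl y (lin m1 * up L (frm Q)) = algebraMap k L (fnl lam (frm Q)) := by
    intro Q
    have e1 : lin m1 * up L (frm Q) =
        ∑ M : Mon 3 (e + 1), C (algebraMap k L (Q M)) *
          (lin m1 * up L (frm (Pi.single M 1 : Mon 3 (e + 1) → k))) := by
      have e2 : up L (frm Q) = ∑ M : Mon 3 (e + 1), C (algebraMap k L (Q M)) *
          up L (frm (Pi.single M 1 : Mon 3 (e + 1) → k)) := by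
        simp only [hfrm1]
        unfold up frm
        rw [map_sum]
        refine Finset.sum_congr rfl fun M _ => ?_
        rw [map_mul, map_C]
      rw [e2, Finset.mul_sum]
      exact Finset.sum_congr rfl fun M _ => by ring
    rw [e1, fnl_sum', Pool.Agent.H15.BO.fnl_frm, map_sum]
    refine Finset.sum_congr rfl fun M _ => ?_
    rw [fnl_C_mul', hr, map_mul, hlam, mul_comm]
  have hlin' : ∀ G : MvPolynomial (Fin 3) k, G.IsHomogeneous (e + 1) →
      fnl y (lin m1 * up L G) = algebraMap k L (fnl lam G) := by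
    intro G hG
    have := hlin (fun f : Mon 3 (e + 1) => coeff (fs f.1) G)
    rwa [frm_coeff hG] at this
  have h0' : ∀ G : MvPolynomial (Fin 3) k, G.IsHomogeneous (e + 1) →
      fnl y (lin m0 * up L G) = 0 := by
    intro G hG
    have := h0 (fun f : Mon 3 (e + 1) => coeff (fs f.1) G)
    rwa [frm_coeff hG] at this
  have hXR : ∀ (R : Mon 3 e → k) (t : Fin 3), (X t * frm R).IsHomogeneous (e + 1) := by
    intro R t
    have := (isHomogeneous_X k t).mul (frm_homog R)
    rwa [add_comm] at this
  have hann : ∀ R : Mon 3 e → k,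
      ∑ t, m0 t * algebraMap k L (fnl lam (X t * frm R)) = 0 := by
    intro R
    have e1 : ∑ t, m0 t * algebraMap k L (fnl lam (X t * frm R)) =
        fnl y (∑ t, C (m0 t) * (lin m1 * up L (X t * frm R))) := by
      rw [fnl_sum']
      refine Finset.sum_congr rfl fun t _ => ?_
      rw [fnl_C_mul', hlin' _ (hXR R t)]
    have e2 : (∑ t, C (m0 t) * (lin m1 * up L (X t * frm R)) : MvPolynomial (Fin 3) L) =
        ∑ t, C (m1 t) * (lin m0 * up L (X t * frm R)) := by
      have hu : ∀ t : Fin 3, up L (X t * frm R) = X t * up L (frm R) := by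
        intro t
        unfold up
        rw [map_mul, map_X]
      simp only [hu]
      have key : ∀ (A : Fin 3 → L) (D u : MvPolynomial (Fin 3) L),
          ∑ t, C (A t) * (D * (X t * u)) = D * (lin A * u) := by
        intro A D u
        unfold lin
        rw [Finset.sum_mul, Finset.mul_sum]
        refine Finset.sum_congr rfl fun t _ => ?_
        ring
      rw [key, key]
      ring
    rw [e1, e2, fnl_sum']
    refine Finset.sum_eq_zero fun t _ => ?_
    rw [fnl_C_mul', h0' _ (hXR R t), mul_zero]
  rcases hANN k L e lam m0 hm0ne hann with h | ⟨η, s, hs⟩ | ⟨z, c, hz0, hc0, -, hzc⟩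
  · exfalso
    obtain ⟨Q, hQ⟩ := hex
    apply hQ
    rw [hlin, Pool.Agent.H15.BO.fnl_frm]
    simp [h]
  · have hη : η ≠ 0 := by
      rintro rfl
      apply hm0ne
      funext t
      rw [hs t]
      simp
    have hs0 : s ≠ 0 := by
      rintro rfl
      apply hm0ne
      funext t
      rw [hs t]
      simp
    refine hOLN k L x η hη ?_
    have e1 : s * ∑ t, algebraMap k L (η t) * x t = 0 := by
      rw [Finset.mul_sum, ← hm0]
      refine Finset.sum_congr rfl fun t _ => ?_
      rw [hs t]
      ring
    exact (mul_eq_zero.1 e1).resolve_left hs0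
  · exfalso
    obtain ⟨a, ha⟩ := hz z hz0
    apply ha
    have e1 := hgr m1 hm1 a
    rw [hlin' _ (hg a)] at e1
    have e2 : fnl lam (g a) = c * eval z (g a) := by
      have := hzc (fun f : Mon 3 (e + 1) => coeff (fs f.1) (g a))
      rwa [frm_coeff (hg a)] at this
    rw [e2, map_eq_zero] at e1
    exact (mul_eq_zero.1 e1).resolve_left hc0

end Pool.Agent.H60.BO
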